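import Pool.Agent.Q295.LQG.Final

/-!
# MP_d1f1b2_pr: the dyadic LQG tilings with `c_M ∈ (1, 25)` have no metric measure scaling limit

`Q ∈ (0, 2)`, `c_M = 25 - 6 Q²`; `Q < √2` is `c_M > 13`.
-/

set_option autoImplicit false

namespace Pool.Agent.Results.MP_d1f1b2_pr.NoScalingLimit

open MeasureTheory ProbabilityTheory Filter Topology
open Pool.Agent.Y980 Pool.Agent.Q295.LQG

/-- Let `h` be a whole-plane Gaussian free field (given by its circle averages), `0 < Q < 2`, and let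
`tiling Q h ε ω` be the dyadic tiling `𝒮_h^ε`.

1. For all constants `a ε, b ε > 0` with `a ε → 0`, the rescaled rooted spaces do not converge in
law in the local Gromov-Hausdorff-Prokhorov topology.
2. For all constants `a ε, b ε > 0`: if the rescaled rooted spaces are a.s. boundedly compact for all
small `ε` then `Q ≥ √2`, and if they converge in law to `Y` then `a ε ≥ c` for all small `ε` and all
the distances in `Y` are a.s. at least `c`, for some `c > 0`.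
3. If `Q < √2` then, for all small `ε`, with positive probability a tile at the origin has infinitely
many neighbours.
4. If `Q ≥ √2` then there is `p > 0` such that for all `K` there is `M` such that for all small `ε`,
with probability at least `p`, there is a tile `R` at the origin such that for all `ρ ≥ M` there are
`K` tiles at graph distance `ρ` of `R` and at graph distance at least `2 (ρ - M)` of each other. -/
theorem result {Ω Ω' : Type*} [MeasurableSpace Ω] [MeasurableSpace Ω'] {P : Measure Ω}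
    {h : ℝ → ℂ → Ω → ℝ} (hh : IsGFF P h) {Q : ℝ} (hQ0 : 0 < Q) (hQ2 : Q < 2) :
    (∀ a b : ℝ → ℝ, (∀ ε, 0 < ε → 0 < a ε) → (∀ ε, 0 < ε → 0 < b ε) →
      Tendsto a (𝓝[>] 0) (𝓝 0) → ∀ X : ℝ → Ω → PMMSpace,
      (∀ᶠ ε in 𝓝[>] (0 : ℝ), ∀ᵐ ω ∂P, IsRescaled (tiling Q h ε ω) (a ε) (b ε) (X ε ω)) →
      ∀ (P' : Measure Ω') [IsProbabilityMeasure P'] (Y : Ω' → PMMSpace),
        ¬ ConvergesInLaw P X P' Y) ∧
    (∀ a b : ℝ → ℝ, (∀ ε, 0 < ε → 0 < a ε) → (∀ ε, 0 < ε → 0 < b ε) →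
      ∀ X : ℝ → Ω → PMMSpace,
      (∀ᶠ ε in 𝓝[>] (0 : ℝ), ∀ᵐ ω ∂P, IsRescaled (tiling Q h ε ω) (a ε) (b ε) (X ε ω)) →
      √2 ≤ Q ∧
      ∀ (P' : Measure Ω') [IsProbabilityMeasure P'] (Y : Ω' → PMMSpace), ConvergesInLaw P X P' Y →
        ∃ c : ℝ, 0 < c ∧ (∀ᶠ ε in 𝓝[>] (0 : ℝ), c ≤ a ε) ∧
          ∀ᵐ ω ∂P', ∀ p q : (Y ω).X, p ≠ q → c ≤ dist p q) ∧
    (Q < √2 → ∀ᶠ ε in 𝓝[>] (0 : ℝ), ∃ A : Set Ω, 0 < P A ∧ ∀ ω ∈ A, ∃ R : tiling Q h ε ω,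
      (0 : ℂ) ∈ R.1.toSet ∧ {T | (adjGraph (tiling Q h ε ω)).Adj R T}.Infinite) ∧
    (√2 ≤ Q → ∃ p : ℝ, 0 < p ∧ ∀ K : ℕ, ∃ M : ℕ, ∀ᶠ ε in 𝓝[>] (0 : ℝ),
      ENNReal.ofReal p ≤ P {ω | ∃ R : tiling Q h ε ω, (0 : ℂ) ∈ R.1.toSet ∧
        ∀ ρ : ℕ, M ≤ ρ → ∃ f : Fin K → tiling Q h ε ω, ∀ i,
          (adjGraph (tiling Q h ε ω)).Reachable R (f i) ∧
          (adjGraph (tiling Q h ε ω)).dist R (f i) = ρ ∧
          ∀ j, i ≠ j → 2 * (ρ - M) ≤ (adjGraph (tiling Q h ε ω)).dist (f i) (f j)}) := by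
  have key : ∀ a b : ℝ → ℝ, (∀ ε, 0 < ε → 0 < a ε) → (∀ ε, 0 < ε → 0 < b ε) →
      ∀ X : ℝ → Ω → PMMSpace,
      (∀ᶠ ε in 𝓝[>] (0 : ℝ), ∀ᵐ ω ∂P, IsRescaled (tiling Q h ε ω) (a ε) (b ε) (X ε ω)) →
      √2 ≤ Q ∧
      ∀ (P' : Measure Ω') [IsProbabilityMeasure P'] (Y : Ω' → PMMSpace), ConvergesInLaw P X P' Y →
        ∃ c : ℝ, 0 < c ∧ (∀ᶠ ε in 𝓝[>] (0 : ℝ), c ≤ a ε) ∧
          ∀ᵐ ω ∂P', ∀ p q : (Y ω).X, p ≠ q → c ≤ dist p q := by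
    intro a b ha _ X hX
    have hQ1 := sqrt_two_le hh hQ0 ha hX
    refine ⟨hQ1, fun P' _ Y hconv => ?_⟩
    obtain ⟨c, hc0, hc⟩ := bounded_below hh hQ0 hQ1 hQ2 ha hX hconv
    exact ⟨c, hc0, hc, limit_sep hh ha hX hconv hc⟩
  refine ⟨?_, key, infinite_root hh hQ0, fun hQ1 => ?_⟩
  · intro a b ha hb hlim X hX P' _ Y hconv
    obtain ⟨c, hc0, hc, _⟩ := (key a b ha hb X hX).2 P' Y hconv
    have h1 : ∀ᶠ ε in 𝓝[>] (0 : ℝ), a ε < c := hlim.eventually (Iio_mem_nhds hc0)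
    obtain ⟨ε, h2, h3⟩ := (h1.and hc).exists
    linarith
  · obtain ⟨C, p₁, hp₁, hK⟩ := main_prob P hQ0 (two_le_sq_of_sqrt_le hQ1) hQ2
    refine ⟨p₁, hp₁, fun K => ?_⟩
    obtain ⟨m, N, hmN, u₀, hu₀⟩ := hK K
    refine ⟨2 ^ (N + 1), ?_⟩
    filter_upwards [eventually_log_le u₀] with ε hε
    refine (hu₀ _ hε.2 h hh).trans (measure_mono fun ω hω => ?_)
    obtain ⟨n, hn⟩ := Set.mem_iUnion.1 hω
    simp only [Set.mem_ofPred_eq]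
    rw [tiling_eq Q h hε.1 ω]
    exact ⟨⟨_, root_of_Ev hn⟩, zero_mem.2 ⟨Or.inl rfl, Or.inl rfl⟩, far_of_Ev hmN hn⟩

end Pool.Agent.Results.MP_d1f1b2_pr.NoScalingLimit
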